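import Pool.Agent.MT100E.Stmts

/-! E_DTE of the squad MT100: the determinant on the image of an idempotent. -/

set_option autoImplicit false

namespace Pool.Agent.MT100E.H96

open Matrix Polynomial

variable {d : Type} [Fintype d] [DecidableEq d]

/-- the polynomial `det (1 + X N)` -/
noncomputable def dp (N : Matrix d d ℂ) : ℂ[X] :=
  (1 + (Polynomial.X : ℂ[X]) • N.map Polynomial.C).det

theorem dp_eval (N : Matrix d d ℂ) (y : ℂ) : (dp N).eval y = (1 + y • N).det := by
  unfold dp
  have h := (Polynomial.evalRingHom y).map_det (1 + (Polynomial.X : ℂ[X]) • N.map Polynomial.C)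
  have h2 : (Polynomial.evalRingHom y).mapMatrix (1 + (Polynomial.X : ℂ[X]) • N.map Polynomial.C)
      = 1 + y • N := by
    ext i j
    simp [Matrix.one_apply]
    split_ifs <;> simp [mul_comm]
  rw [h2] at h
  exact h

/-- the determinant of a unipotent matrix -/
theorem det_uni {N : Matrix d d ℂ} (hN : IsNilpotent N) : (1 + N).det = 1 := by
  have h1 : IsNilpotent ((Polynomial.X : ℂ[X]) • N.map Polynomial.C) := by
    obtain ⟨k, hk⟩ := hN
    refine ⟨k, ?_⟩
    rw [_root_.smul_pow]
    have : (N.map (Polynomial.C : ℂ →+* ℂ[X])) ^ k = 0 := by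
      have h := (Polynomial.C : ℂ →+* ℂ[X]).mapMatrix.map_pow N k
      rw [hk, map_zero] at h
      exact h.symm
    rw [this, smul_zero]
  have h2 : IsUnit (dp N) := by
    unfold dp
    rw [← Matrix.isUnit_iff_isUnit_det]
    exact h1.isUnit_one_add
  obtain ⟨r, -, hr⟩ := Polynomial.isUnit_iff.1 h2
  have h3 := dp_eval N 1
  have h4 := dp_eval N 0
  rw [← hr, Polynomial.eval_C] at h3 h4
  rw [one_smul] at h3
  rw [zero_smul, add_zero, Matrix.det_one] at h4
  rw [← h3, h4]

/-- the determinant of `1 + (y - 1) p` for an idempotent `p` of trace `k` -/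
theorem det_idem {p : Matrix d d ℂ} (hp : p * p = p) {k : ℕ} (hk : p.trace = (k : ℂ)) (y : ℂ) :
    (1 + (y - 1) • p).det = y ^ k := by
  set G : ℂ[X] := (dp p).comp (X - C 1) with hG
  have hev : ∀ z : ℂ, G.eval z = (1 + (z - 1) • p).det := by
    intro z
    rw [hG, Polynomial.eval_comp, dp_eval]
    simp
  have hmul : ∀ a b : ℂ, G.eval (a * b) = G.eval a * G.eval b := by
    intro a b
    rw [hev, hev, hev, ← Matrix.det_mul]
    congr 1
    rw [mul_add, mul_one, add_mul, one_mul, smul_mul_smul_comm, hp]
    have : (a * b - 1) = (a - 1) + (b - 1) + (a - 1) * (b - 1) := by ring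
    rw [this, add_smul, add_smul]
    abel
  have h1 : G.eval 1 = 1 := by
    rw [hev]; simp
  have hd : G.derivative.eval 1 = (k : ℂ) := by
    rw [hG, Polynomial.derivative_comp]
    have := Matrix.derivative_det_one_add_X_smul p
    rw [hk] at this
    simp only [Polynomial.eval_comp, Polynomial.eval_sub, Polynomial.eval_X,
      Polynomial.eval_C, sub_self, Polynomial.derivative_sub, Polynomial.derivative_X,
      Polynomial.derivative_C, sub_zero, one_mul]
    exact this
  have hode : X * G.derivative = C (k : ℂ) * G := by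
    apply Polynomial.funext
    intro z
    have e : G.comp (C z * X) = C (G.eval z) * G := by
      apply Polynomial.funext
      intro t
      rw [Polynomial.eval_comp, Polynomial.eval_mul, Polynomial.eval_C, Polynomial.eval_mul,
        Polynomial.eval_C, Polynomial.eval_X, hmul]
    have e2 := congrArg (fun q : ℂ[X] => q.derivative.eval 1) e
    simp only [Polynomial.derivative_comp, Polynomial.derivative_mul, Polynomial.derivative_C,
      Polynomial.derivative_X, Polynomial.eval_mul, Polynomial.eval_comp, Polynomial.eval_C,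
      Polynomial.eval_X, zero_mul, zero_add, mul_one, hd] at e2
    rw [Polynomial.eval_mul, Polynomial.eval_mul, Polynomial.eval_X, Polynomial.eval_C, e2]
    ring
  have hco : ∀ i, i ≠ k → G.coeff i = 0 := by
    intro i hi
    have h := congrArg (fun q : ℂ[X] => q.coeff i) hode
    simp only [Polynomial.coeff_C_mul] at h
    cases i with
    | zero =>
      rw [Polynomial.coeff_X_mul_zero] at h
      have hk0 : (k : ℂ) ≠ 0 := by
        exact_mod_cast (Ne.symm hi)
      exact (mul_eq_zero.1 h.symm).resolve_left hk0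
    | succ i =>
      rw [Polynomial.coeff_X_mul, Polynomial.coeff_derivative] at h
      have h5 : ((i : ℂ) + 1 - k) * G.coeff (i + 1) = 0 := by linear_combination h
      refine (mul_eq_zero.1 h5).resolve_left ?_
      intro h6
      apply hi
      have : ((i + 1 : ℕ) : ℂ) = (k : ℂ) := by push_cast; linear_combination h6
      exact_mod_cast this
  have hGm : G = C (G.coeff k) * X ^ k := by
    ext i
    rw [Polynomial.coeff_C_mul, Polynomial.coeff_X_pow]
    split_ifs with h
    · rw [h, mul_one]
    · rw [hco i h, mul_zero]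
  have hc : G.coeff k = 1 := by
    have := h1
    rw [hGm] at this
    simpa using this
  rw [← hev y, hGm, hc]
  simp

/-- the determinant of a combination of orthogonal idempotents -/
theorem det_comb {ι : Type} [DecidableEq ι] (p : ι → Matrix d d ℂ) (y : ι → ℂ) (k : ι → ℕ)
    (hp : ∀ a, p a * p a = p a) (ho : ∀ a b, a ≠ b → p a * p b = 0)
    (hk : ∀ a, (p a).trace = (k a : ℂ)) (s : Finset ι) :
    (1 + ∑ a ∈ s, (y a - 1) • p a).det = ∏ a ∈ s, y a ^ k a := by
  induction s using Finset.induction_on with
  | empty => simp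
  | insert a s ha ih =>
    rw [Finset.sum_insert ha, Finset.prod_insert ha, ← ih, ← det_idem (hp a) (hk a),
      ← Matrix.det_mul]
    congr 1
    have h0 : (p a) * ∑ b ∈ s, (y b - 1) • p b = 0 := by
      rw [Finset.mul_sum]
      refine Finset.sum_eq_zero fun b hb => ?_
      rw [mul_smul_comm, ho a b (by rintro rfl; exact ha hb), smul_zero]
    rw [mul_add, mul_one, add_mul, one_mul, smul_mul_assoc, h0, smul_zero, add_zero, add_assoc]

theorem dte : DteStmt := by
  intro d _ _ n π y U e h1 h2 h3 h4 h5 h6 h7 h8 k h9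
  unfold dete
  set Y : Matrix d d ℂ := ∑ a, y a • π a with hY
  have a1 : e * (U * e) = U * e := by
    rw [← mul_assoc, ← h8, mul_assoc, h6]
  have e1 : Y * U * e + (1 - e) = (Y * e + (1 - e)) * (1 + (U - 1) * e) := by
    simp only [mul_add, add_mul, sub_mul, mul_sub, mul_one, one_mul, mul_assoc, h6, a1]
    abel
  have hN : IsNilpotent ((U - 1) * e) := by
    refine Commute.isNilpotent_mul_right ?_ h4
    rw [commute_iff_eq, sub_mul, mul_sub, one_mul, mul_one, h8]
  rw [e1, Matrix.det_mul, det_uni hN, mul_one]
  have e2 : Y * e + (1 - e) = 1 + ∑ a, (y a - 1) • (π a * e) := by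
    have h10 : ∑ a, π a * e = e := by rw [← Finset.sum_mul, h3, one_mul]
    simp only [sub_smul, one_smul, Finset.sum_sub_distrib, h10]
    rw [hY, Finset.sum_mul]
    simp only [smul_mul_assoc]
    abel
  rw [e2]
  refine det_comb (fun a => π a * e) y k ?_ ?_ h9 Finset.univ
  · intro a
    change π a * e * (π a * e) = π a * e
    rw [mul_assoc, ← mul_assoc e, ← h7 a, mul_assoc (π a) e e, h6, ← mul_assoc, h1]
  · intro a b hab
    change π a * e * (π b * e) = 0
    rw [mul_assoc, ← mul_assoc e, ← h7 b, mul_assoc (π b) e e, h6, ← mul_assoc, h2 a b hab,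
      zero_mul]

end Pool.Agent.MT100E.H96
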